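import Mathlib
import Pool.Agent.W560.HP.Stm

/-! Project HP: the explicit system for `m = 3`, nodes `0, 1, 3, 4`. -/

set_option autoImplicit false

namespace Pool.Agent.W591.HP.Base22

open Finset Polynomial
open W560.Sep (dt)
open W560.HP

variable {K : Type} [Field K] [CharZero K]

/-- nodes -/
def r0 (K : Type) [Field K] : ℕ → K := fun j =>
  if j = 0 then 1 else if j = 1 then -1 else if j = 3 then -1 else if j = 4 then 1 else 0

/-- weights -/
def t0 (K : Type) [Field K] : ℕ → K := fun j =>
  if j = 0 then -1 else if j = 1 then 2 else if j = 3 then 1 else if j = 4 then -2 else 0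

/-- polynomial of degree four with given coefficients -/
noncomputable def P (a b c d e : K) : K[X] :=
  C a + C b * X + C c * X ^ 2 + C d * X ^ 3 + C e * X ^ 4

omit [CharZero K] in
theorem P0 (a b c d e : K) : (P a b c d e).coeff 0 = a := by
  simp [P, coeff_X, coeff_C, coeff_X_pow]

omit [CharZero K] in
theorem P1 (a b c d e : K) : (P a b c d e).coeff 1 = b := by
  simp [P, coeff_X, coeff_C, coeff_X_pow]

omit [CharZero K] in
theorem P2 (a b c d e : K) : (P a b c d e).coeff 2 = c := by
  simp [P, coeff_X, coeff_C, coeff_X_pow]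

omit [CharZero K] in
theorem P3 (a b c d e : K) : (P a b c d e).coeff 3 = d := by
  simp [P, coeff_X, coeff_C, coeff_X_pow]

omit [CharZero K] in
theorem g0 : g 3 (r0 K) 0 = P (-1) (-2) 0 2 1 := by
  simp only [g, r0, P]
  simp
  simp only [map_ofNat]
  ring

omit [CharZero K] in
theorem g1 : g 3 (r0 K) 1 = P 0 (-1) 3 (-3) 1 := by
  simp only [g, r0, P]
  simp
  simp only [map_ofNat]
  ring

omit [CharZero K] in
theorem g3 : g 3 (r0 K) 3 = P (-1) 2 0 (-2) 1 := by
  simp only [g, r0, P]
  simp
  simp only [map_ofNat]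
  ring

omit [CharZero K] in
theorem g4 : g 3 (r0 K) 4 = P 0 1 3 3 1 := by
  simp only [g, r0, P]
  simp
  simp only [map_ofNat]
  ring

omit [CharZero K] in
theorem h0 : h 3 (r0 K) (t0 K) 0 = P 3 3 (-3) (-3) 0 := by
  simp only [h, r0, t0, P]
  simp
  simp only [map_ofNat]
  ring

omit [CharZero K] in
theorem h1 : h 3 (r0 K) (t0 K) 1 = P (-1) 3 (-15) 5 0 := by
  simp only [h, r0, t0, P]
  simp
  simp only [map_ofNat]
  ring

omit [CharZero K] in
theorem h3 : h 3 (r0 K) (t0 K) 3 = P 3 (-3) (-3) 3 0 := by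
  simp only [h, r0, t0, P]
  simp
  simp only [map_ofNat]
  ring

omit [CharZero K] in
theorem h4 : h 3 (r0 K) (t0 K) 4 = P (-1) (-3) (-15) (-5) 0 := by
  simp only [h, r0, t0, P]
  simp
  simp only [map_ofNat]
  ring

theorem base22 : S_BASE22 := by
  intro K _ _ σ s0 s1 s2 s3
  refine ⟨r0 K, t0 K, ?_, ?_, ?_, ?_, ?_, ?_⟩
  · intro j hj
    have a0 := hj 0 (by norm_num)
    have a1 := hj 1 (by norm_num)
    have a2 := hj 2 (by norm_num)
    have a3 := hj 3 (by norm_num)
    rw [s0] at a0; rw [s1] at a1; rw [s2] at a2; rw [s3] at a3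
    simp only [r0]
    rw [if_neg (by omega), if_neg (by omega), if_neg (by omega), if_neg (by omega)]
  · intro j hj
    have a0 := hj 0 (by norm_num)
    have a1 := hj 1 (by norm_num)
    have a2 := hj 2 (by norm_num)
    have a3 := hj 3 (by norm_num)
    rw [s0] at a0; rw [s1] at a1; rw [s2] at a2; rw [s3] at a3
    simp only [t0]
    rw [if_neg (by omega), if_neg (by omega), if_neg (by omega), if_neg (by omega)]
  · intro l hl
    rw [Finset.sum_range_succ, Finset.sum_range_succ, Finset.sum_range_succ,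
      Finset.sum_range_succ, Finset.sum_range_zero, s0, s1, s2, s3, g0, g1, g3, g4]
    interval_cases l
    · simp only [P0]; simp [t0]
    · simp only [P1]; simp [t0]
    · simp only [P2]; simp [t0]
  · have e : dt 4 (fun l i => (g 3 (r0 K) (σ i)).coeff l) = 96 := by
      unfold dt
      simp only [Matrix.det_succ_row_zero, Fin.sum_univ_succ, Matrix.det_unique, Matrix.of_apply,
        Matrix.submatrix_apply]
      simp [Fin.succAbove, s0, s1, s2, s3, g0, g1, g3, g4, P0, P1, P2, P3]
      norm_num
    rw [e]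
    norm_num
  · have e : dt 4 (fun l i => (h 3 (r0 K) (t0 K) (σ i)).coeff l) = 4608 := by
      unfold dt
      simp only [Matrix.det_succ_row_zero, Fin.sum_univ_succ, Matrix.det_unique, Matrix.of_apply,
        Matrix.submatrix_apply]
      simp [Fin.succAbove, s0, s1, s2, s3, h0, h1, h3, h4, P0, P1, P2, P3]
      norm_num
    rw [e]
    norm_num
  · intro i hi
    interval_cases i
    · rw [s0]; simp [t0]
    · rw [s1]; simp [t0]
    · rw [s2]; simp [t0]
    · rw [s3]; simp [t0]

end Pool.Agent.W591.HP.Base22
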